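import Mathlib

/-!
Hyperbolic sums of Haar functions over the dyadic rectangles of volume `2^{-n}` in `[0,1]^d`.
-/

open MeasureTheory Real
open scoped ENNReal BigOperators

namespace HaarSB

/-- The `L^∞` normalised Haar function of the dyadic interval `[k 2^{-r}, (k+1) 2^{-r})`:
`-1` on its left half, `1` on its right half and `0` elsewhere. -/
noncomputable def haar1 (r k : ℕ) (x : ℝ) : ℝ :=
  if (k : ℝ) / 2^r ≤ x ∧ x < ((k : ℝ) + 1/2) / 2^r then -1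
  else if ((k : ℝ) + 1/2) / 2^r ≤ x ∧ x < ((k : ℝ) + 1) / 2^r then 1 else 0

/-- The dyadic rectangles of volume `2^{-n}` in `[0,1]^d`: the side lengths are `2^{-s_j}` with
`s_1 + ... + s_d = n`, and the `j`-th side is `[k_j 2^{-s_j}, (k_j+1) 2^{-s_j})`, `k_j < 2^{s_j}`. -/
abbrev Rect (d n : ℕ) : Type :=
  (s : {s : Fin d → Fin (n+1) // ∑ j, ((s j : Fin (n+1)) : ℕ) = n}) ×
    ((j : Fin d) → Fin (2 ^ ((s.1 j : Fin (n+1)) : ℕ)))

/-- The Haar function `h_R(x) = ∏_j h_{I_j}(x_j)` of a dyadic rectangle. -/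
noncomputable def haar {d n : ℕ} (R : Rect d n) (x : Fin d → ℝ) : ℝ :=
  ∏ j, haar1 (R.1.1 j) (R.2 j) (x j)

/-- The hyperbolic sum `∑_{|R| = 2^{-n}} a_R h_R`. -/
noncomputable def hyp {d n : ℕ} (a : Rect d n → ℝ) (x : Fin d → ℝ) : ℝ := ∑ R, a R * haar R x

/-- The supremum of `|∑ a_R h_R|` over the cube `[0,1]^d`. -/
noncomputable def supNorm {d n : ℕ} (a : Rect d n → ℝ) : ℝ :=
  ⨆ x : {x : Fin d → ℝ // ∀ j, x j ∈ Set.Icc (0:ℝ) 1}, |hyp a x|

/-! ### auxiliary notions (grid of mesh `2^{-(n+1)}`) -/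

/-- value of the Haar function of `[k 2^{-r}, (k+1) 2^{-r})` at `y / 2^(n+1)` (for `r ≤ n`) -/
noncomputable def hv (n r k y : ℕ) : ℝ :=
  if y / 2^(n+1-r) = k then (if y / 2^(n-r) % 2 = 0 then -1 else 1) else 0

/-- number of common leading bits of the `(n+1)`-bit numbers `x` and `y` -/
def Tg (n x y : ℕ) : ℕ :=
  Nat.findGreatest (fun t => x / 2^(n+1-t) = y / 2^(n+1-t)) (n+1)

/-- the `L_2` normalised Haar functions on the grid -/
noncomputable def bg {d n : ℕ} (R : Rect d n) (x : Fin d → Fin (2^(n+1))) : ℝ :=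
  Real.sqrt (2^n) * ∏ j, hv n (R.1.1 j) (R.2 j) (x j)

/-- shapes -/
def Sh (d n : ℕ) : Finset (Fin d → Fin (n+1)) := Finset.univ.filter (fun s => ∑ j, ((s j : Fin (n+1)) : ℕ) = n)

def shp (d n : ℕ) : ℕ := (Sh d n).card

noncomputable def Th (d n : ℕ) (T : Fin d → ℕ) : ℝ := ∑ s ∈ Sh d n, (2:ℝ)^(∑ j, min (s j : ℕ) (T j))

end HaarSB
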