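import Pool.Agent.Helper719.Haar.Vol

open MeasureTheory Real ProbabilityTheory
open scoped ENNReal BigOperators

namespace HaarSB

theorem vol_box {ι : Type} [Fintype ι] (u : ι → ℝ) (δ : ℝ) (hδ : 0 < δ) :
    volume {a : ι → ℝ | ∀ i, |a i - u i| ≤ δ} = ENNReal.ofReal ((2 * δ) ^ Fintype.card ι) := by
  have h : {a : ι → ℝ | ∀ i, |a i - u i| ≤ δ} = Metric.closedBall u δ := by
    ext a
    rw [Metric.mem_closedBall, dist_pi_le_iff hδ.le]
    simp [Real.dist_eq]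
  rw [h, Real.volume_pi_closedBall u hδ.le]

theorem supNorm_nonneg {d n : ℕ} (a : Rect d n → ℝ) : 0 ≤ supNorm a :=
  Real.iSup_nonneg fun _ => abs_nonneg _

/-- smoothed small ball inequality -/
theorem smooth (d : ℕ) (hd : 3 ≤ d) (δ ε : ℝ) (hδ : 0 < δ) (hε : 0 < ε) :
    ∃ c : ℝ, 0 < c ∧ ∀ n : ℕ, 1 ≤ n → ∀ u : Rect d n → ℝ, (∀ R, |u R| ≤ 1) →
      volume {a : Rect d n → ℝ | (∀ R, |a R - u R| ≤ δ) ∧
        (n:ℝ)^(((d:ℝ) - 2) / 2) * supNorm a < c * ((2:ℝ)^n)⁻¹ * ∑ R, |a R|} ≤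
      ENNReal.ofReal (ε ^ Fintype.card (Rect d n)) *
        volume {a : Rect d n → ℝ | ∀ R, |a R - u R| ≤ δ} := by
  obtain ⟨C, hC, hvol⟩ := vol_haar d hd
  obtain ⟨C1, hC1, hup⟩ := HypVol.shp_upper d (by omega)
  refine ⟨2 * δ * ε / (C * (1 + δ) * C1), by positivity, ?_⟩
  intro n hn u hu
  set c : ℝ := 2 * δ * ε / (C * (1 + δ) * C1) with hc
  have hc0 : 0 < c := by positivity
  have hn1 : (1:ℝ) ≤ n := by exact_mod_cast hn
  have hn0 : (0:ℝ) < n := by linarith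
  have hnd : 0 < Real.sqrt ((n:ℝ)^d) := Real.sqrt_pos.2 (by positivity)
  have hNcard : (Fintype.card (Rect d n) : ℝ) = 2^n * shp d n := by
    rw [card_rect]; push_cast; ring
  -- the bound for the sup norm on the bad set
  have hpw : (n:ℝ)^(((d:ℝ) - 2) / 2) * Real.sqrt ((n:ℝ)^d) = (n:ℝ)^(d-1) := by
    rw [Real.sqrt_eq_rpow, ← Real.rpow_natCast, ← Real.rpow_natCast, ← Real.rpow_mul hn0.le,
      ← Real.rpow_add hn0]
    congr 1
    have : ((d - 1 : ℕ) : ℝ) = (d:ℝ) - 1 := by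
      rw [Nat.cast_sub (by omega)]; simp
    rw [this]
    ring
  have hpos : 0 < (n:ℝ)^(((d:ℝ) - 2) / 2) := Real.rpow_pos_of_pos hn0 _
  set l : ℝ := c * (1 + δ) * C1 * Real.sqrt ((n:ℝ)^d) with hl
  have hl0 : 0 < l := by positivity
  have hsub : {a : Rect d n → ℝ | (∀ R, |a R - u R| ≤ δ) ∧
        (n:ℝ)^(((d:ℝ) - 2) / 2) * supNorm a < c * ((2:ℝ)^n)⁻¹ * ∑ R, |a R|} ⊆
      {a : Rect d n → ℝ | supNorm a ≤ l} := by
    rintro a ⟨ha1, ha2⟩
    have hsum : ∑ R, |a R| ≤ (1 + δ) * (2^n * (C1 * (n:ℝ)^(d-1))) := by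
      calc ∑ R, |a R| ≤ ∑ _R : Rect d n, (1 + δ) := by
            apply Finset.sum_le_sum
            intro R _
            have h1 := ha1 R
            have h2 := hu R
            have h3 : a R = (a R - u R) + u R := by ring
            calc |a R| = |(a R - u R) + u R| := by rw [← h3]
              _ ≤ |a R - u R| + |u R| := abs_add_le _ _
              _ ≤ 1 + δ := by linarith
        _ = (1 + δ) * (2^n * shp d n) := by
            rw [Finset.sum_const, Finset.card_univ, nsmul_eq_mul, hNcard]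
            ring
        _ ≤ _ := by
            have h := hup n hn
            rw [← shp_eq] at h
            gcongr
    have h1 : (n:ℝ)^(((d:ℝ) - 2) / 2) * supNorm a ≤ (n:ℝ)^(((d:ℝ) - 2) / 2) * l := by
      refine ha2.le.trans ?_
      calc c * ((2:ℝ)^n)⁻¹ * ∑ R, |a R| ≤ c * ((2:ℝ)^n)⁻¹ * ((1 + δ) * (2^n * (C1 * (n:ℝ)^(d-1)))) := by
            gcongr
        _ = c * (1 + δ) * C1 * ((n:ℝ)^(d-1)) := by
            field_simp
        _ = (n:ℝ)^(((d:ℝ) - 2) / 2) * l := by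
            rw [hl, ← hpw]
            ring
    exact le_of_mul_le_mul_left h1 hpos
  rw [vol_box u δ hδ, ← ENNReal.ofReal_mul (by positivity), ← mul_pow]
  refine (measure_mono hsub).trans ((hvol n hn l hl0).trans (le_of_eq ?_))
  congr 2
  rw [hl, hc]
  field_simp

end HaarSB
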