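import Pool.Agent.Helper719.Haar.Defs

/-!
Hyperbolic sums of Haar functions over the dyadic rectangles of volume `2^{-n}` in `[0,1]^d`.
-/

open MeasureTheory Real
open scoped ENNReal BigOperators

namespace HaarSB



theorem Tg_count_aux (m k c : ℕ) :
    (Finset.univ.filter fun y : Fin m => (y : ℕ) / 2^k = c).card ≤ 2^k := by
  have h : (Finset.univ.filter fun y : Fin m => (y : ℕ) / 2^k = c).card
      ≤ (Finset.range (2^k)).card := by
    apply Finset.card_le_card_of_injOn (fun y : Fin m => (y : ℕ) % 2^k)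
    · intro y hy
      simp only [Finset.coe_range, Set.mem_Iio]
      exact Nat.mod_lt _ (by positivity)
    · intro y hy z hz hyz
      have h1 : (y : ℕ) / 2^k = c := by simpa using hy
      have h2 : (z : ℕ) / 2^k = c := by simpa using hz
      have h3 : (y : ℕ) % 2^k = (z : ℕ) % 2^k := hyz
      have h4 := Nat.div_add_mod (y : ℕ) (2^k)
      have h5 := Nat.div_add_mod (z : ℕ) (2^k)
      apply Fin.ext
      rw [← h4, ← h5, h1, h2, h3]
  simpa using h

theorem Tg_count (n : ℕ) (x : Fin (2^(n+1))) (t : ℕ) (ht : t < n + 3) :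
    ((Finset.univ.filter fun y : Fin (2^(n+1)) => Tg n x y = t).card : ℝ) ≤ 2^(n+1) * (1/2)^t := by
  rcases Nat.lt_or_ge (n+1) t with h | h
  · have he : (Finset.univ.filter fun y : Fin (2^(n+1)) => Tg n x y = t) = ∅ := by
      apply Finset.filter_eq_empty_iff.mpr
      intro y _ hy
      have : Tg n x y ≤ n + 1 := Nat.findGreatest_le _
      omega
    rw [he]
    simp only [Finset.card_empty, Nat.cast_zero]
    positivity
  · have hsub : (Finset.univ.filter fun y : Fin (2^(n+1)) => Tg n x y = t) ⊆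
        (Finset.univ.filter fun y : Fin (2^(n+1)) => (y : ℕ) / 2^(n+1-t) = (x : ℕ) / 2^(n+1-t)) := by
      intro y hy
      simp only [Finset.mem_filter, Finset.mem_univ, true_and] at hy ⊢
      have h0 : (x : ℕ) / 2^(n+1-0) = (y : ℕ) / 2^(n+1-0) := by
        rw [Nat.sub_zero, Nat.div_eq_of_lt x.2, Nat.div_eq_of_lt y.2]
      have hs := Nat.findGreatest_spec (P := fun t => (x : ℕ) / 2^(n+1-t) = (y : ℕ) / 2^(n+1-t))
        (m := 0) (n := n+1) (Nat.zero_le _) h0
      have hT : Nat.findGreatest (fun t => (x : ℕ) / 2^(n+1-t) = (y : ℕ) / 2^(n+1-t)) (n+1) = t := hy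
      rw [hT] at hs
      exact hs.symm
    have hc := (Finset.card_le_card hsub).trans (Tg_count_aux (2^(n+1)) (n+1-t) ((x : ℕ) / 2^(n+1-t)))
    have hc2 : ((Finset.univ.filter fun y : Fin (2^(n+1)) => Tg n x y = t).card : ℝ)
        ≤ (2 : ℝ)^(n+1-t) := by exact_mod_cast hc
    refine hc2.trans (le_of_eq ?_)
    have h2 : (2 : ℝ)^(n+1) = 2^(n+1-t) * 2^t := by
      rw [← pow_add]
      congr 1
      omega
    rw [h2, mul_assoc, ← mul_pow]
    norm_num

end HaarSB
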