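import Pool.Agent.Helper719.Haar.Defs

/-!
Hyperbolic sums of Haar functions over the dyadic rectangles of volume `2^{-n}` in `[0,1]^d`.
-/

open MeasureTheory Real
open scoped ENNReal BigOperators

namespace HaarSB



theorem hv_kap_term (n r k x y : ℕ) :
    |hv n r k x * hv n r k y| ≤
      if x / 2^(n+1-r) = k ∧ x / 2^(n+1-r) = y / 2^(n+1-r) then (1 : ℝ) else 0 := by
  unfold hv
  by_cases h1 : x / 2^(n+1-r) = k
  · by_cases h2 : y / 2^(n+1-r) = k
    · have h3 : x / 2^(n+1-r) = k ∧ x / 2^(n+1-r) = y / 2^(n+1-r) := ⟨h1, h1.trans h2.symm⟩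
      rw [if_pos h3, if_pos h1, if_pos h2]
      split_ifs <;> norm_num
    · rw [if_neg h2, mul_zero, abs_zero]
      split_ifs <;> norm_num
  · rw [if_neg h1, zero_mul, abs_zero]
    split_ifs <;> norm_num

theorem hv_kap (n r x y : ℕ) (hr : r ≤ n) :
    |∑ k : Fin (2^r), hv n r k x * hv n r k y| ≤ if r ≤ Tg n x y then 1 else 0 := by
  have h1 : |∑ k : Fin (2^r), hv n r k x * hv n r k y| ≤ ∑ k : Fin (2^r),
      (if x / 2^(n+1-r) = (k : ℕ) ∧ x / 2^(n+1-r) = y / 2^(n+1-r) then (1 : ℝ) else 0) :=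
    (Finset.abs_sum_le_sum_abs _ _).trans (Finset.sum_le_sum fun k _ => hv_kap_term n r k x y)
  refine h1.trans ?_
  by_cases hxy : x / 2^(n+1-r) = y / 2^(n+1-r)
  · have hT : r ≤ Tg n x y := by
      unfold Tg
      exact Nat.le_findGreatest (by omega) hxy
    rw [if_pos hT, Finset.sum_boole]
    have : (Finset.univ.filter fun k : Fin (2^r) =>
        x / 2^(n+1-r) = (k : ℕ) ∧ x / 2^(n+1-r) = y / 2^(n+1-r)).card ≤ 1 := by
      rw [Finset.card_le_one]
      intro a ha b hb
      rw [Finset.mem_filter] at ha hb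
      exact Fin.ext (ha.2.1.symm.trans hb.2.1)
    exact_mod_cast this
  · rw [Finset.sum_eq_zero]
    · split_ifs <;> norm_num
    · intro k _
      rw [if_neg]
      exact fun h => hxy h.2

end HaarSB
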