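import Pool.Agent.Helper719.Haar.Defs
import Pool.Agent.Helper719.Haar.P_hv_kap

/-!
Hyperbolic sums of Haar functions over the dyadic rectangles of volume `2^{-n}` in `[0,1]^d`.
-/

open MeasureTheory Real
open scoped ENNReal BigOperators

namespace HaarSB



theorem bg_ker_shape (d n : ℕ) (x y : Fin d → Fin (2^(n+1)))
    (s : {s : Fin d → Fin (n+1) // ∑ j, ((s j : Fin (n+1)) : ℕ) = n}) :
    |∑ k : ((j : Fin d) → Fin (2 ^ ((s.1 j : Fin (n+1)) : ℕ))),
        bg (⟨s, k⟩ : Rect d n) x * bg (⟨s, k⟩ : Rect d n) y|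
      ≤ (2:ℝ)^(∑ j, min (s.1 j : ℕ) (Tg n (x j) (y j))) := by
  have h1 : ∑ k : ((j : Fin d) → Fin (2 ^ ((s.1 j : Fin (n+1)) : ℕ))),
        bg (⟨s, k⟩ : Rect d n) x * bg (⟨s, k⟩ : Rect d n) y
      = 2^n * ∏ j, ∑ k : Fin (2^((s.1 j : Fin (n+1)) : ℕ)),
          hv n (s.1 j) k (x j) * hv n (s.1 j) k (y j) := by
    rw [Finset.prod_univ_sum, Finset.mul_sum, Fintype.piFinset_univ]
    refine Finset.sum_congr rfl (fun k _ => ?_)
    unfold bg
    have hs : Real.sqrt (2^n) * Real.sqrt (2^n) = (2:ℝ)^n := Real.mul_self_sqrt (by positivity)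
    rw [Finset.prod_mul_distrib]
    calc _ = (Real.sqrt (2^n) * Real.sqrt (2^n)) *
        ((∏ j, hv n (s.1 j) (k j) (x j)) * (∏ j, hv n (s.1 j) (k j) (y j))) := by ring
      _ = _ := by rw [hs]
  rw [h1, abs_mul, abs_of_nonneg (by positivity : (0:ℝ) ≤ 2^n), Finset.abs_prod]
  have h2 : ∀ j : Fin d, |∑ k : Fin (2^((s.1 j : Fin (n+1)) : ℕ)),
          hv n (s.1 j) k (x j) * hv n (s.1 j) k (y j)| ≤
          if ((s.1 j : Fin (n+1)) : ℕ) ≤ Tg n (x j) (y j) then 1 else 0 := fun j =>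
    hv_kap n _ _ _ (Nat.lt_succ_iff.mp (s.1 j).isLt)
  by_cases hall : ∀ j, ((s.1 j : Fin (n+1)) : ℕ) ≤ Tg n (x j) (y j)
  · have h3 : ∏ j, |∑ k : Fin (2^((s.1 j : Fin (n+1)) : ℕ)),
          hv n (s.1 j) k (x j) * hv n (s.1 j) k (y j)| ≤ 1 := by
      apply Finset.prod_le_one
      · intro j _; exact abs_nonneg _
      · intro j _
        have := h2 j
        rw [if_pos (hall j)] at this
        exact this
    have h4 : ∑ j, min (s.1 j : ℕ) (Tg n (x j) (y j)) = n := by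
      exact (Finset.sum_congr rfl (fun j _ => min_eq_left (hall j))).trans s.2
    rw [h4]
    have : (0:ℝ) < 2^n := by positivity
    nlinarith
  · push Not at hall
    obtain ⟨j, hj⟩ := hall
    have h3 : |∑ k : Fin (2^((s.1 j : Fin (n+1)) : ℕ)),
          hv n (s.1 j) k (x j) * hv n (s.1 j) k (y j)| = 0 := by
      have := h2 j
      rw [if_neg (by omega)] at this
      exact le_antisymm this (abs_nonneg _)
    rw [Finset.prod_eq_zero (Finset.mem_univ j) h3, mul_zero]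
    positivity

theorem bg_ker (d n : ℕ) (x y : Fin d → Fin (2^(n+1))) :
    |∑ R : Rect d n, bg R x * bg R y| ≤ Th d n (fun j => Tg n (x j) (y j)) := by
  rw [Fintype.sum_sigma]
  refine (Finset.abs_sum_le_sum_abs _ _).trans ?_
  refine (Finset.sum_le_sum (fun s _ => bg_ker_shape d n x y s)).trans ?_
  unfold Th Sh
  rw [Finset.sum_subtype (Finset.univ.filter (fun s : Fin d → Fin (n+1) => ∑ j, ((s j : Fin (n+1)) : ℕ) = n))
    (p := fun s : Fin d → Fin (n+1) => ∑ j, ((s j : Fin (n+1)) : ℕ) = n) (by simp)]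

end HaarSB
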