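import Pool.Agent.Helper719.Haar.Defs

/-!
Hyperbolic sums of Haar functions over the dyadic rectangles of volume `2^{-n}` in `[0,1]^d`.
-/

open MeasureTheory Real
open scoped ENNReal BigOperators

namespace HaarSB



theorem hv_sum (n r k : ℕ) (hr : r ≤ n) (hk : k < 2^r) : ∑ y : Fin (2^(n+1)), hv n r k y = 0 := by
  obtain ⟨q, hqd⟩ : ∃ q, q = 2 ^ (n - r) := ⟨_, rfl⟩
  have hq : 0 < q := by
    rw [hqd]
    positivity
  have e2 : 2 ^ (n + 1 - r) = q * 2 := by
    rw [hqd, ← pow_succ]
    congr 1
    omega
  have eN : 2 ^ (n + 1) = (2 ^ r * 2) * q := by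
    rw [hqd, ← pow_succ, ← pow_add]
    congr 1
    omega
  have hhv : ∀ y : ℕ, hv n r k y = if y / q / 2 = k then (if y / q % 2 = 0 then -1 else 1) else 0 := by
    intro y
    unfold hv
    rw [e2, ← hqd, Nat.div_div_eq_div_mul]
  have hge : ∀ y : ℕ, y / q % 2 ≠ 0 → q ≤ y := by
    intro y hy
    by_contra hcon
    push Not at hcon
    rw [Nat.div_eq_of_lt hcon] at hy
    exact hy rfl
  have hadd : ∀ y : ℕ, (y + q) / q = y / q + 1 := fun y => Nat.add_div_right y hq
  have hsub : ∀ y : ℕ, y / q % 2 ≠ 0 → (y - q) / q + 1 = y / q := by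
    intro y hy
    rw [← hadd (y - q), Nat.sub_add_cancel (hge y hy)]
  rw [Fin.sum_univ_eq_sum_range (fun y => hv n r k y) (2 ^ (n + 1))]
  apply Finset.sum_involution (fun y _ => if y / q % 2 = 0 then y + q else y - q)
  · intro y hy
    rw [hhv, hhv]
    by_cases h : y / q % 2 = 0
    · rw [if_pos h, if_pos h, hadd]
      have h1 : (y / q + 1) / 2 = y / q / 2 := by omega
      have h2 : ¬ ((y / q + 1) % 2 = 0) := by omega
      rw [h1, if_neg h2]
      split_ifs <;> norm_num
    · rw [if_neg h, if_neg h]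
      have h3 := hsub y h
      have h1 : (y - q) / q / 2 = y / q / 2 := by omega
      have h2 : (y - q) / q % 2 = 0 := by omega
      rw [h1, if_pos h2]
      split_ifs <;> norm_num
  · intro y hy _
    by_cases h : y / q % 2 = 0
    · rw [if_pos h]
      omega
    · rw [if_neg h]
      have := hge y h
      omega
  · intro y hy
    rw [Finset.mem_range] at hy ⊢
    by_cases h : y / q % 2 = 0
    · rw [if_pos h]
      rw [eN] at hy ⊢
      rw [← Nat.div_lt_iff_lt_mul hq] at hy ⊢
      rw [hadd]
      omega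
    · rw [if_neg h]
      omega
  · intro y hy
    by_cases h : y / q % 2 = 0
    · simp only [if_pos h]
      have h2 : ¬ ((y + q) / q % 2 = 0) := by
        rw [hadd]
        omega
      rw [if_neg h2]
      omega
    · simp only [if_neg h]
      have h3 := hsub y h
      have h2 : (y - q) / q % 2 = 0 := by omega
      rw [if_pos h2]
      have := hge y h
      omega

end HaarSB
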