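import Pool.Agent.Helper719.Haar.Defs
import Pool.Agent.Helper719.Haar.P_hv_sum

/-!
Hyperbolic sums of Haar functions over the dyadic rectangles of volume `2^{-n}` in `[0,1]^d`.
-/

open MeasureTheory Real
open scoped ENNReal BigOperators

namespace HaarSB



theorem hv_congr' (n r k y z : ℕ) (hr : r ≤ n) (h : y / 2^(n-r) = z / 2^(n-r)) :
    hv n r k y = hv n r k z := by
  have e : n + 1 - r = (n - r) + 1 := by omega
  have h1 : ∀ w : ℕ, w / 2^(n+1-r) = w / 2^(n-r) / 2 := by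
    intro w
    rw [e, pow_succ, Nat.div_div_eq_div_mul]
  unfold hv
  rw [h1 y, h1 z, h]

theorem hv_orth_lt (n r k r' k' : ℕ) (hr : r ≤ n) (hr' : r' ≤ n) (hk' : k' < 2^r')
    (hlt : r < r') : ∑ y : Fin (2^(n+1)), hv n r k y * hv n r' k' y = 0 := by
  have hterm : ∀ y : ℕ, hv n r k y * hv n r' k' y =
      hv n r k (k' * 2^(n+1-r')) * hv n r' k' y := by
    intro y
    by_cases hy : (y : ℕ) / 2^(n+1-r') = k'
    · have e : n - r = (n + 1 - r') + (r' - 1 - r) := by omega
      have h2 : (y : ℕ) / 2^(n-r) = (k' * 2^(n+1-r')) / 2^(n-r) := by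
        rw [e, pow_add, ← Nat.div_div_eq_div_mul, ← Nat.div_div_eq_div_mul, hy,
          Nat.mul_div_cancel _ (by positivity)]
      rw [hv_congr' n r k y (k' * 2^(n+1-r')) hr h2]
    · have h0 : hv n r' k' y = 0 := by
        unfold hv
        rw [if_neg hy]
      rw [h0, mul_zero, mul_zero]
  have hs : ∑ y : Fin (2^(n+1)), hv n r k y * hv n r' k' y =
      ∑ y : Fin (2^(n+1)), hv n r k (k' * 2^(n+1-r')) * hv n r' k' y :=
    Finset.sum_congr rfl (fun y _ => hterm _)
  rw [hs, ← Finset.mul_sum, hv_sum n r' k' hr' hk', mul_zero]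

theorem hv_card (n r k : ℕ) (hr : r ≤ n) (hk : k < 2^r) :
    ∑ y : Fin (2^(n+1)), (if (y : ℕ) / 2^(n+1-r) = k then (1:ℝ) else 0) = (2:ℝ)^(n+1-r) := by
  rw [Fin.sum_univ_eq_sum_range (fun y : ℕ => if y / 2^(n+1-r) = k then (1:ℝ) else 0) (2^(n+1)),
    ← Finset.sum_filter]
  have hM : 0 < 2^(n+1-r) := by positivity
  have hf : (Finset.range (2^(n+1))).filter (fun y => y / 2^(n+1-r) = k) =
      Finset.Ico (k * 2^(n+1-r)) ((k+1) * 2^(n+1-r)) := by
    ext y
    simp only [Finset.mem_filter, Finset.mem_range, Finset.mem_Ico]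
    constructor
    · rintro ⟨_, h⟩
      constructor
      · exact (Nat.le_div_iff_mul_le hM).1 h.ge
      · exact (Nat.div_lt_iff_lt_mul hM).1 (by omega)
    · rintro ⟨h1, h2⟩
      have h3 : k ≤ y / 2^(n+1-r) := (Nat.le_div_iff_mul_le hM).2 h1
      have h4 : y / 2^(n+1-r) < k + 1 := (Nat.div_lt_iff_lt_mul hM).2 h2
      refine ⟨?_, by omega⟩
      have h5 : (k+1) * 2^(n+1-r) ≤ 2^r * 2^(n+1-r) := Nat.mul_le_mul_right _ hk
      have h6 : 2^r * 2^(n+1-r) = 2^(n+1) := by
        rw [← pow_add]; congr 1; omega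
      omega
  rw [hf, Finset.sum_const, Nat.card_Ico, nsmul_eq_mul, mul_one]
  have h7 : (k+1) * 2^(n+1-r) - k * 2^(n+1-r) = 2^(n+1-r) := by
    rw [Nat.add_mul, one_mul, Nat.add_sub_cancel_left]
  rw [h7]
  push_cast
  rfl

theorem hv_orth (n r k r' k' : ℕ) (hr : r ≤ n) (hk : k < 2^r) (hr' : r' ≤ n) (hk' : k' < 2^r') :
    ∑ y : Fin (2^(n+1)), hv n r k y * hv n r' k' y = if r = r' ∧ k = k' then (2:ℝ)^(n+1-r) else 0 := by
  rcases lt_trichotomy r r' with hlt | heq | hgt
  · rw [hv_orth_lt n r k r' k' hr hr' hk' hlt, if_neg (fun h => hlt.ne h.1)]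
  · subst heq
    by_cases hkk : k = k'
    · subst hkk
      rw [if_pos ⟨rfl, rfl⟩, ← hv_card n r k hr hk]
      refine Finset.sum_congr rfl (fun y _ => ?_)
      unfold hv
      split_ifs <;> norm_num
    · rw [if_neg (fun h => hkk h.2)]
      refine Finset.sum_eq_zero (fun y _ => ?_)
      by_cases hy : (y : ℕ) / 2^(n+1-r) = k
      · have h0 : hv n r k' y = 0 := by
          unfold hv
          rw [if_neg (fun h => hkk (hy.symm.trans h))]
        rw [h0, mul_zero]
      · have h0 : hv n r k y = 0 := by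
          unfold hv
          rw [if_neg hy]
        rw [h0, zero_mul]
  · rw [if_neg (fun h => hgt.ne' h.1)]
    have h := hv_orth_lt n r' k' r k hr' hr hk hgt
    rw [← h]
    exact Finset.sum_congr rfl (fun y _ => mul_comm _ _)

end HaarSB
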