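import Pool.Agent.Helper719.Haar.Defs
import Pool.Agent.Helper719.Haar.P_hv_orth

/-!
Hyperbolic sums of Haar functions over the dyadic rectangles of volume `2^{-n}` in `[0,1]^d`.
-/

open MeasureTheory Real
open scoped ENNReal BigOperators

namespace HaarSB



theorem bg_orth (d n : ℕ) (R R' : Rect d n) :
    ∑ x : Fin d → Fin (2^(n+1)), bg R x * bg R' x =
      if R = R' then (Fintype.card (Fin d → Fin (2^(n+1))) : ℝ) else 0 := by
  have h1 : ∀ x : Fin d → Fin (2^(n+1)), bg R x * bg R' x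
      = 2^n * ∏ j, (hv n (R.1.1 j) (R.2 j) (x j) * hv n (R'.1.1 j) (R'.2 j) (x j)) := by
    intro x
    unfold bg
    rw [Finset.prod_mul_distrib]
    have h2 : Real.sqrt ((2:ℝ)^n) * Real.sqrt ((2:ℝ)^n) = 2^n :=
      Real.mul_self_sqrt (by positivity)
    calc _ = (Real.sqrt ((2:ℝ)^n) * Real.sqrt ((2:ℝ)^n)) *
          ((∏ j, hv n (R.1.1 j) (R.2 j) (x j)) * ∏ j, hv n (R'.1.1 j) (R'.2 j) (x j)) := by ring
      _ = _ := by rw [h2]
  have h3 : ∑ x : Fin d → Fin (2^(n+1)), ∏ j, (hv n (R.1.1 j) (R.2 j) (x j) *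
      hv n (R'.1.1 j) (R'.2 j) (x j))
      = ∏ j, ∑ y : Fin (2^(n+1)), (hv n (R.1.1 j) (R.2 j) y * hv n (R'.1.1 j) (R'.2 j) y) := by
    rw [Finset.prod_univ_sum, Fintype.piFinset_univ]
  rw [Finset.sum_congr rfl (fun x _ => h1 x), ← Finset.mul_sum, h3]
  have h4 : ∀ j, ∑ y : Fin (2^(n+1)), (hv n (R.1.1 j) (R.2 j) y * hv n (R'.1.1 j) (R'.2 j) y)
      = if ((R.1.1 j : Fin (n+1)) : ℕ) = ((R'.1.1 j : Fin (n+1)) : ℕ) ∧
          ((R.2 j : ℕ) = (R'.2 j : ℕ))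
        then (2:ℝ)^(n+1-((R.1.1 j : Fin (n+1)) : ℕ)) else 0 := by
    intro j
    exact hv_orth n _ _ _ _ (Nat.lt_succ_iff.1 (R.1.1 j).2) (R.2 j).2
      (Nat.lt_succ_iff.1 (R'.1.1 j).2) (R'.2 j).2
  rw [Finset.prod_congr rfl (fun j _ => h4 j)]
  by_cases hR : R = R'
  · subst hR
    rw [if_pos rfl]
    simp only [and_self, if_true]
    have h5 : (2:ℝ)^n = ∏ j, (2:ℝ)^(((R.1.1 j : Fin (n+1)) : ℕ)) := by
      rw [Finset.prod_pow_eq_pow_sum, R.1.2]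
    rw [h5, ← Finset.prod_mul_distrib]
    have h6 : ∀ j, (2:ℝ)^(((R.1.1 j : Fin (n+1)) : ℕ)) *
        (2:ℝ)^(n+1-((R.1.1 j : Fin (n+1)) : ℕ)) = 2^(n+1) := by
      intro j
      rw [← pow_add]
      congr 1
      have := (R.1.1 j).2
      omega
    rw [Finset.prod_congr rfl (fun j _ => h6 j)]
    simp [Fintype.card_pi]
  · rw [if_neg hR]
    have h7 : ∃ j, ¬ (((R.1.1 j : Fin (n+1)) : ℕ) = ((R'.1.1 j : Fin (n+1)) : ℕ) ∧
          ((R.2 j : ℕ) = (R'.2 j : ℕ))) := by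
      by_contra hcon
      push Not at hcon
      apply hR
      obtain ⟨⟨s, hs⟩, k⟩ := R
      obtain ⟨⟨s', hs'⟩, k'⟩ := R'
      simp only at hcon
      have e1 : s = s' := funext fun j => Fin.ext (hcon j).1
      subst e1
      have e2 : k = k' := funext fun j => Fin.ext (hcon j).2
      rw [e2]
    obtain ⟨j, hj⟩ := h7
    rw [Finset.prod_eq_zero (Finset.mem_univ j) (by rw [if_neg hj]), mul_zero]

end HaarSB
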