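import Pool.Agent.Helper719.Haar.Defs

/-!
Hyperbolic sums of Haar functions over the dyadic rectangles of volume `2^{-n}` in `[0,1]^d`.
-/

open MeasureTheory Real
open scoped ENNReal BigOperators

namespace HaarSB



theorem card_rect (d n : ℕ) : Fintype.card (Rect d n) = 2^n * shp d n := by
  classical
  unfold Rect
  rw [Fintype.card_sigma]
  have h : ∀ s : {s : Fin d → Fin (n+1) // ∑ j, ((s j : Fin (n+1)) : ℕ) = n},
      Fintype.card ((j : Fin d) → Fin (2 ^ ((s.1 j : Fin (n+1)) : ℕ))) = 2 ^ n := by
    intro s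
    rw [Fintype.card_pi]
    simp only [Fintype.card_fin]
    rw [Finset.prod_pow_eq_pow_sum, s.2]
  rw [Finset.sum_congr rfl (fun s _ => h s), Finset.sum_const, smul_eq_mul, mul_comm,
    Finset.card_univ, Fintype.card_subtype]
  rfl

end HaarSB
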