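import Pool.Agent.Helper719.Haar.Defs

/-!
Hyperbolic sums of Haar functions over the dyadic rectangles of volume `2^{-n}` in `[0,1]^d`.
-/

open MeasureTheory Real
open scoped ENNReal BigOperators

namespace HaarSB



theorem hv_sq (n r y : ℕ) (hr : r ≤ n) (hy : y < 2^(n+1)) : ∑ k : Fin (2^r), hv n r k y ^ 2 = 1 := by
  have hk : y / 2 ^ (n + 1 - r) < 2 ^ r := by
    apply Nat.div_lt_of_lt_mul
    rw [← pow_add]
    have h1 : n + 1 - r + r = n + 1 := by omega
    rw [h1]
    exact hy
  rw [Finset.sum_eq_single (⟨y / 2 ^ (n + 1 - r), hk⟩ : Fin (2 ^ r))]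
  · unfold hv
    rw [if_pos rfl]
    split_ifs <;> norm_num
  · intro k _ hne
    have h1 : ¬ (y / 2 ^ (n + 1 - r) = (k : ℕ)) := by
      intro h
      exact hne (Fin.ext h.symm)
    unfold hv
    rw [if_neg h1]
    norm_num
  · intro h
    exact absurd (Finset.mem_univ _) h

end HaarSB
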