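import Pool.Agent.Helper719.Haar.Defs
import Pool.Agent.Helper719.Haar.P_hv_sq
import Pool.Agent.Helper719.Haar.P_card_rect

/-!
Hyperbolic sums of Haar functions over the dyadic rectangles of volume `2^{-n}` in `[0,1]^d`.
-/

open MeasureTheory Real
open scoped ENNReal BigOperators

namespace HaarSB



theorem bg_sq (d n : ℕ) (x : Fin d → Fin (2^(n+1))) :
    ∑ R : Rect d n, bg R x ^ 2 = (Fintype.card (Rect d n) : ℝ) := by
  have h1 : ∀ R : Rect d n, bg R x ^ 2 = 2^n * ∏ j, hv n (R.1.1 j) (R.2 j) (x j) ^ 2 := by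
    intro R
    unfold bg
    rw [mul_pow, Real.sq_sqrt (by positivity), Finset.prod_pow]
  simp_rw [h1]
  rw [← Finset.mul_sum, Fintype.sum_sigma]
  have h2 : ∀ s : {s : Fin d → Fin (n+1) // ∑ j, ((s j : Fin (n+1)) : ℕ) = n},
      ∑ k : ((j : Fin d) → Fin (2 ^ ((s.1 j : Fin (n+1)) : ℕ))),
        ∏ j, hv n (s.1 j) (k j) (x j) ^ 2 = 1 := by
    intro s
    have h3 := Finset.prod_univ_sum (fun j : Fin d => (Finset.univ : Finset (Fin (2 ^ ((s.1 j : Fin (n+1)) : ℕ)))))
      (fun j k => hv n (s.1 j) k (x j) ^ 2)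
    rw [Fintype.piFinset_univ] at h3
    rw [← h3]
    apply Finset.prod_eq_one
    intro j _
    exact hv_sq n (s.1 j) (x j) (by have := (s.1 j).2; omega) (x j).2
  simp only [h2]
  rw [card_rect, shp]
  have h4 : (Finset.univ : Finset {s : Fin d → Fin (n+1) // ∑ j, ((s j : Fin (n+1)) : ℕ) = n}).card = (Sh d n).card := by
    rw [Finset.card_univ, Fintype.card_subtype]
    rfl
  rw [Finset.sum_const, h4]
  simp

end HaarSB
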