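import Pool.Agent.Helper719.Haar.Defs
import Pool.Agent.Helper719.Haar.P_hv_sum

/-!
Hyperbolic sums of Haar functions over the dyadic rectangles of volume `2^{-n}` in `[0,1]^d`.
-/

open MeasureTheory Real
open scoped ENNReal BigOperators

namespace HaarSB



theorem bg_zero (d n : ℕ) (hd : 1 ≤ d) (R : Rect d n) :
    ∑ x : Fin d → Fin (2^(n+1)), bg R x = 0 := by
  unfold bg
  rw [← Finset.mul_sum]
  have h := Finset.prod_univ_sum (fun _ : Fin d => (Finset.univ : Finset (Fin (2^(n+1)))))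
    (fun j y => hv n (R.1.1 j) (R.2 j) y)
  rw [Fintype.piFinset_univ] at h
  rw [← h]
  have h0 : ∏ j : Fin d, ∑ y : Fin (2^(n+1)), hv n (R.1.1 j) (R.2 j) y = 0 := by
    apply Finset.prod_eq_zero (Finset.mem_univ (⟨0, hd⟩ : Fin d))
    exact hv_sum n _ _ (Nat.lt_succ_iff.1 (R.1.1 ⟨0, hd⟩).2) (R.2 ⟨0, hd⟩).2
  rw [h0, mul_zero]

end HaarSB
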