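import Pool.Agent.Helper719.Haar.Defs

/-!
Hyperbolic sums of Haar functions over the dyadic rectangles of volume `2^{-n}` in `[0,1]^d`.
-/

open MeasureTheory Real
open scoped ENNReal BigOperators

namespace HaarSB



theorem haar1_grid (n r k y : ℕ) (hr : r ≤ n) : haar1 r k ((y:ℝ) / 2^(n+1)) = hv n r k y := by
  obtain ⟨m, rfl⟩ := Nat.exists_eq_add_of_le hr
  have hq : 0 < 2 ^ m := Nat.pos_of_ne_zero (by positivity)
  have e1 : r + m + 1 - r = m + 1 := by omega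
  have e2 : r + m - r = m := by omega
  have hR : (0 : ℝ) < 2 ^ r := by positivity
  have hQ : (0 : ℝ) < 2 ^ m := by positivity
  have hN : (2 : ℝ) ^ (r + m + 1) = 2 ^ r * (2 * 2 ^ m) := by
    rw [pow_succ, pow_add]
    ring
  have hN0 : (0 : ℝ) < 2 ^ (r + m + 1) := by positivity
  have A1 : (k : ℝ) / 2 ^ r ≤ (y : ℝ) / 2 ^ (r + m + 1) ↔ k * (2 * 2 ^ m) ≤ y := by
    rw [div_le_div_iff₀ hR hN0, hN]
    have h1 : (k : ℝ) * (2 ^ r * (2 * 2 ^ m)) = ((k * (2 * 2 ^ m) : ℕ) : ℝ) * 2 ^ r := by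
      push_cast
      ring
    rw [h1, mul_le_mul_iff_left₀ hR, Nat.cast_le]
  have A2 : (y : ℝ) / 2 ^ (r + m + 1) < ((k : ℝ) + 1 / 2) / 2 ^ r ↔ y < (2 * k + 1) * 2 ^ m := by
    rw [div_lt_div_iff₀ hN0 hR, hN]
    have h1 : ((k : ℝ) + 1 / 2) * (2 ^ r * (2 * 2 ^ m)) =
        (((2 * k + 1) * 2 ^ m : ℕ) : ℝ) * 2 ^ r := by
      push_cast
      ring
    rw [h1, mul_lt_mul_iff_left₀ hR, Nat.cast_lt]
  have A3 : (y : ℝ) / 2 ^ (r + m + 1) < ((k : ℝ) + 1) / 2 ^ r ↔ y < (k + 1) * (2 * 2 ^ m) := by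
    rw [div_lt_div_iff₀ hN0 hR, hN]
    have h1 : ((k : ℝ) + 1) * (2 ^ r * (2 * 2 ^ m)) =
        (((k + 1) * (2 * 2 ^ m) : ℕ) : ℝ) * 2 ^ r := by
      push_cast
      ring
    rw [h1, mul_lt_mul_iff_left₀ hR, Nat.cast_lt]
  have A2' : ((k : ℝ) + 1 / 2) / 2 ^ r ≤ (y : ℝ) / 2 ^ (r + m + 1) ↔
      (2 * k + 1) * 2 ^ m ≤ y := by
    rw [← not_lt, A2, not_lt]
  unfold haar1 hv
  simp only [e1, e2, A1, A2, A2', A3]
  have hp : 2 ^ (m + 1) = 2 * 2 ^ m := by rw [pow_succ]; ring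
  rw [hp]
  have hk : y / (2 * 2 ^ m) = k ↔ k * (2 * 2 ^ m) ≤ y ∧ y < (k + 1) * (2 * 2 ^ m) := by
    rw [Nat.div_eq_iff (by positivity)]
    constructor
    · rintro ⟨h1, h2⟩
      refine ⟨h1, ?_⟩
      have : (k + 1) * (2 * 2 ^ m) = k * (2 * 2 ^ m) + 2 * 2 ^ m := by ring
      omega
    · rintro ⟨h1, h2⟩
      refine ⟨h1, ?_⟩
      have : (k + 1) * (2 * 2 ^ m) = k * (2 * 2 ^ m) + 2 * 2 ^ m := by ring
      omega
  generalize hQ' : 2 ^ m = q at *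
  by_cases h1 : k * (2 * q) ≤ y ∧ y < (2 * k + 1) * q
  · have h2 : y < (k + 1) * (2 * q) := by
      refine lt_of_lt_of_le h1.2 ?_
      nlinarith
    have h3 : y / q = 2 * k := by
      rw [Nat.div_eq_iff hq]
      have e3 : k * (2 * q) = 2 * k * q := by ring
      have e4 : (2 * k + 1) * q = 2 * k * q + q := by ring
      omega
    rw [if_pos h1, if_pos (hk.2 ⟨h1.1, h2⟩), if_pos (by omega)]
  · rw [if_neg h1]
    by_cases h2 : (2 * k + 1) * q ≤ y ∧ y < (k + 1) * (2 * q)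
    · have h3 : y / q = 2 * k + 1 := by
        rw [Nat.div_eq_iff hq]
        have e3 : (k + 1) * (2 * q) = (2 * k + 1) * q + q := by ring
        omega
      have h4 : k * (2 * q) ≤ y := by
        refine le_trans ?_ h2.1
        nlinarith
      rw [if_pos h2, if_pos (hk.2 ⟨h4, h2.2⟩), if_neg (by omega)]
    · rw [if_neg h2, if_neg]
      intro h3
      rw [hk] at h3
      rcases Nat.lt_or_ge y ((2 * k + 1) * q) with h4 | h4
      · exact h1 ⟨h3.1, h4⟩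
      · exact h2 ⟨h4, h3.2⟩

end HaarSB
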