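import Pool.Agent.Helper719.Haar.Defs
import Pool.Agent.Helper719.Haar.P_Tg_count

/-!
Hyperbolic sums of Haar functions over the dyadic rectangles of volume `2^{-n}` in `[0,1]^d`.
-/

open MeasureTheory Real
open scoped ENNReal BigOperators

namespace HaarSB



theorem pcg_T_lt (n x y : ℕ) : Tg n x y < n + 3 := by
  unfold Tg
  have := Nat.findGreatest_le (P := fun t => x / 2^(n+1-t) = y / 2^(n+1-t)) (n+1)
  omega

theorem pair_count_g (d n : ℕ) (F : (Fin d → ℕ) → ℝ) (hF : ∀ T, 0 ≤ F T) :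
    ∑ x : Fin d → Fin (2^(n+1)), ∑ y : Fin d → Fin (2^(n+1)), F (fun j => Tg n (x j) (y j))
      ≤ ((2:ℝ)^(n+1))^(2*d) * ∑ T : Fin d → Fin (n+3),
        (1/2)^(∑ j, ((T j : Fin (n+3)) : ℕ)) * F (fun j => T j) := by
  classical
  have hx : ∀ x : Fin d → Fin (2^(n+1)),
      ∑ y : Fin d → Fin (2^(n+1)), F (fun j => Tg n (x j) (y j)) ≤
      ((2:ℝ)^(n+1))^d * ∑ T : Fin d → Fin (n+3),
        (1/2)^(∑ j, ((T j : Fin (n+3)) : ℕ)) * F (fun j => T j) := by
    intro x
    have e1 : ∀ y : Fin d → Fin (2^(n+1)), F (fun j => Tg n (x j) (y j)) =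
        ∑ T : Fin d → Fin (n+3), if (∀ j, Tg n (x j) (y j) = T j) then F (fun j => T j) else 0 := by
      intro y
      rw [Finset.sum_eq_single (fun j => (⟨Tg n (x j) (y j), pcg_T_lt n _ _⟩ : Fin (n+3)))]
      · rw [if_pos (fun j => rfl)]
      · intro T _ hT
        rw [if_neg]
        intro h
        apply hT
        funext j
        exact Fin.ext (h j).symm
      · intro h; exact absurd (Finset.mem_univ _) h
    rw [Finset.sum_congr rfl fun y _ => e1 y, Finset.sum_comm, Finset.mul_sum]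
    refine Finset.sum_le_sum fun T _ => ?_
    rw [← Finset.sum_filter, Finset.sum_const, nsmul_eq_mul]
    have e2 : (Finset.univ.filter fun y : Fin d → Fin (2^(n+1)) => ∀ j, Tg n (x j) (y j) = T j) =
        Fintype.piFinset (fun j => Finset.univ.filter fun y : Fin (2^(n+1)) => Tg n (x j) y = T j) := by
      ext y
      simp [Fintype.mem_piFinset]
    rw [e2, Fintype.card_piFinset]
    push_cast
    have e3 : ∏ j, ((Finset.univ.filter fun y : Fin (2^(n+1)) => Tg n (x j) y = T j).card : ℝ) ≤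
        ∏ j : Fin d, ((2:ℝ)^(n+1) * (1/2)^((T j : Fin (n+3)) : ℕ)) :=
      Finset.prod_le_prod (fun j _ => Nat.cast_nonneg _) fun j _ => Tg_count n (x j) (T j) (T j).2
    have e4 : ∏ j : Fin d, ((2:ℝ)^(n+1) * (1/2)^((T j : Fin (n+3)) : ℕ)) =
        ((2:ℝ)^(n+1))^d * (1/2)^(∑ j, ((T j : Fin (n+3)) : ℕ)) := by
      rw [Finset.prod_mul_distrib, Finset.prod_const, Finset.card_univ, Fintype.card_fin,
        Finset.prod_pow_eq_pow_sum]
    calc _ ≤ (((2:ℝ)^(n+1))^d * (1/2)^(∑ j, ((T j : Fin (n+3)) : ℕ))) * F (fun j => T j) := by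
          refine mul_le_mul_of_nonneg_right ?_ (hF _)
          rw [← e4]; exact e3
      _ = _ := by ring
  calc _ ≤ ∑ x : Fin d → Fin (2^(n+1)), ((2:ℝ)^(n+1))^d * ∑ T : Fin d → Fin (n+3),
        (1/2)^(∑ j, ((T j : Fin (n+3)) : ℕ)) * F (fun j => T j) := Finset.sum_le_sum fun x _ => hx x
    _ = _ := by
      rw [Finset.sum_const, Finset.card_univ, Fintype.card_fun, Fintype.card_fin, Fintype.card_fin,
        nsmul_eq_mul]
      push_cast
      rw [two_mul, pow_add]
      ring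

end HaarSB
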