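import Pool.Agent.Helper719.Haar.Defs
import Pool.Agent.Helper719.Haar.P_haar1_grid

/-!
Hyperbolic sums of Haar functions over the dyadic rectangles of volume `2^{-n}` in `[0,1]^d`.
-/

open MeasureTheory Real
open scoped ENNReal BigOperators

namespace HaarSB



theorem abs_haar1_le (r k : ℕ) (x : ℝ) : |haar1 r k x| ≤ 1 := by
  unfold haar1
  split_ifs <;> norm_num

theorem abs_haar_le {d n : ℕ} (R : Rect d n) (x : Fin d → ℝ) : |haar R x| ≤ 1 := by
  unfold haar
  rw [Finset.abs_prod]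
  exact Finset.prod_le_one (fun _ _ => abs_nonneg _) (fun j _ => abs_haar1_le _ _ _)

theorem sup_grid (d n : ℕ) (a : Rect d n → ℝ) (x : Fin d → Fin (2^(n+1))) :
    |∑ R, a R * bg R x| ≤ Real.sqrt (2^n) * supNorm a := by
  obtain ⟨p, hp⟩ : ∃ p : Fin d → ℝ, ∀ j, p j = ((x j : ℕ) : ℝ) / 2^(n+1) := ⟨_, fun _ => rfl⟩
  have hpm : ∀ j, p j ∈ Set.Icc (0:ℝ) 1 := by
    intro j
    rw [hp j]
    constructor
    · positivity
    · rw [div_le_one (by positivity)]
      exact_mod_cast (x j).2.le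
  have hbg : ∀ R : Rect d n, bg R x = Real.sqrt (2^n) * haar R p := by
    intro R
    unfold bg haar
    congr 1
    apply Finset.prod_congr rfl
    intro j _
    rw [hp j]
    exact (haar1_grid n _ _ _ (Nat.lt_succ_iff.mp (R.1.1 j).2)).symm
  have hsum : ∑ R, a R * bg R x = Real.sqrt (2^n) * hyp a p := by
    unfold hyp
    rw [Finset.mul_sum]
    apply Finset.sum_congr rfl
    intro R _
    rw [hbg]
    ring
  rw [hsum, abs_mul, abs_of_nonneg (Real.sqrt_nonneg _)]
  apply mul_le_mul_of_nonneg_left _ (Real.sqrt_nonneg _)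
  have hbdd : BddAbove (Set.range fun x : {x : Fin d → ℝ // ∀ j, x j ∈ Set.Icc (0:ℝ) 1} =>
      |hyp a x|) := by
    refine ⟨∑ R, |a R|, ?_⟩
    rintro _ ⟨y, rfl⟩
    show |hyp a y| ≤ ∑ R, |a R|
    unfold hyp
    refine (Finset.abs_sum_le_sum_abs _ _).trans (Finset.sum_le_sum fun R _ => ?_)
    rw [abs_mul]
    calc |a R| * |haar R y| ≤ |a R| * 1 :=
          mul_le_mul_of_nonneg_left (abs_haar_le R y) (abs_nonneg _)
      _ = |a R| := mul_one _
  exact le_ciSup hbdd ⟨p, hpm⟩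

end HaarSB
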