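import Pool.Agent.Helper719.Haar.Defs
import Pool.Agent.HypVol.L_vol_upper
import Pool.Agent.HypVol.L_kern_sum
import Pool.Agent.HypVol.L_shp_lower
import Pool.Agent.HypVol.L_shp_upper
import Pool.Agent.HypVol.L_gibbs_polar
import Pool.Agent.Helper719.Haar.P_bg_zero
import Pool.Agent.Helper719.Haar.P_bg_orth
import Pool.Agent.Helper719.Haar.P_bg_sq
import Pool.Agent.Helper719.Haar.P_bg_ker
import Pool.Agent.Helper719.Haar.P_card_rect
import Pool.Agent.Helper719.Haar.P_pair_count_g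
import Pool.Agent.Helper719.Haar.P_sup_grid

open MeasureTheory Real ProbabilityTheory
open scoped ENNReal BigOperators Pointwise

namespace HaarSB

theorem Th_eq (d n : ℕ) (T : Fin d → ℕ) : Th d n T = HypVol.Th d n T := rfl

theorem shp_eq (d n : ℕ) : shp d n = HypVol.shp d n := rfl

theorem H_bound_g (d : ℕ) (hd : 2 ≤ d) : ∃ a C : ℝ, 0 < a ∧ 0 < C ∧ ∀ n : ℕ, 1 ≤ n →
    (∑ x : Fin d → Fin (2^(n+1)), ∑ y : Fin d → Fin (2^(n+1)),
      (1 + ∑ R : Rect d n, bg R x * bg R y)^2 *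
      (Real.exp ((Real.sqrt (a * n / (2^n * shp d n)))^2 * ∑ R : Rect d n, bg R x * bg R y) - 1))
        / (Fintype.card (Fin d → Fin (2^(n+1))) : ℝ)^2 ≤ C * n * 2^n := by
  obtain ⟨a, C0, ha, hC0, hk⟩ := HypVol.kern_sum d hd
  refine ⟨a, C0, ha, hC0, fun n hn => ?_⟩
  set F : (Fin d → ℕ) → ℝ := fun T => (1 + 2 * Th d n T) ^ 2 *
    (Real.exp (a * n * Th d n T / (2 ^ n * shp d n)) - 1) with hF
  have hTh : ∀ T : Fin d → ℕ, 0 ≤ Th d n T := by
    intro T
    unfold Th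
    positivity
  have hF0 : ∀ T, 0 ≤ F T := by
    intro T
    have h1 := hTh T
    have h2 : 0 ≤ a * n * Th d n T / (2 ^ n * shp d n) := by positivity
    have h3 : 0 ≤ Real.exp (a * n * Th d n T / (2 ^ n * shp d n)) - 1 := by
      have := Real.one_le_exp h2
      linarith
    simp only [hF]
    positivity
  have hs : (Real.sqrt (a * n / (2 ^ n * shp d n))) ^ 2 = a * n / (2 ^ n * shp d n) :=
    Real.sq_sqrt (by positivity)
  have hpt : ∀ x y : Fin d → Fin (2^(n+1)), (1 + ∑ R : Rect d n, bg R x * bg R y) ^ 2 *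
      (Real.exp ((Real.sqrt (a * n / (2 ^ n * shp d n))) ^ 2 *
        ∑ R : Rect d n, bg R x * bg R y) - 1) ≤
      F (fun j => Tg n (x j) (y j)) := by
    intro x y
    set D := ∑ R : Rect d n, bg R x * bg R y with hD
    set θ := Th d n (fun j => Tg n (x j) (y j)) with hθ
    have hDb : |D| ≤ θ := bg_ker d n x y
    have hθ0 : 0 ≤ θ := hTh _
    have hF' : F (fun j => Tg n (x j) (y j)) =
        (1 + 2 * θ) ^ 2 * (Real.exp (a * n / (2 ^ n * shp d n) * θ) - 1) := by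
      simp only [hF, ← hθ]
      congr 3
      ring
    rw [hF', hs]
    have hc : 0 ≤ a * n / (2 ^ n * shp d n) := by positivity
    have hR : 0 ≤ Real.exp (a * n / (2 ^ n * shp d n) * θ) - 1 := by
      have := Real.one_le_exp (show 0 ≤ a * n / (2 ^ n * shp d n) * θ by positivity)
      linarith
    rcases le_or_gt 0 D with h | h
    · have hD2 : D ≤ θ := (le_abs_self D).trans hDb
      have h1 : (1 + D) ^ 2 ≤ (1 + 2 * θ) ^ 2 := by
        apply pow_le_pow_left₀ (by linarith)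
        linarith
      have h2 : Real.exp (a * n / (2 ^ n * shp d n) * D) ≤
          Real.exp (a * n / (2 ^ n * shp d n) * θ) :=
        Real.exp_le_exp.2 (mul_le_mul_of_nonneg_left hD2 hc)
      have h3 : 0 ≤ Real.exp (a * n / (2 ^ n * shp d n) * D) - 1 := by
        have := Real.one_le_exp (mul_nonneg hc h)
        linarith
      exact mul_le_mul h1 (by linarith) h3 (by positivity)
    · have h1 : Real.exp (a * n / (2 ^ n * shp d n) * D) ≤ 1 :=
        Real.exp_le_one_iff.2 (mul_nonpos_of_nonneg_of_nonpos hc h.le)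
      have h2 : (1 + D) ^ 2 * (Real.exp (a * n / (2 ^ n * shp d n) * D) - 1) ≤ 0 :=
        mul_nonpos_of_nonneg_of_nonpos (sq_nonneg _) (by linarith)
      exact h2.trans (mul_nonneg (sq_nonneg _) hR)
  have hcard : (Fintype.card (Fin d → Fin (2^(n+1))) : ℝ) ^ 2 = ((2 : ℝ) ^ (n + 1)) ^ (2 * d) := by
    rw [Fintype.card_fun, Fintype.card_fin, Fintype.card_fin]
    push_cast
    rw [← pow_mul, ← pow_mul, ← pow_mul]
    ring_nf
  rw [hcard, div_le_iff₀ (by positivity)]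
  calc (∑ x : Fin d → Fin (2^(n+1)), ∑ y : Fin d → Fin (2^(n+1)),
      (1 + ∑ R : Rect d n, bg R x * bg R y) ^ 2 *
      (Real.exp ((Real.sqrt (a * n / (2 ^ n * shp d n))) ^ 2 *
        ∑ R : Rect d n, bg R x * bg R y) - 1))
      ≤ ∑ x : Fin d → Fin (2^(n+1)), ∑ y : Fin d → Fin (2^(n+1)), F (fun j => Tg n (x j) (y j)) :=
        Finset.sum_le_sum fun x _ => Finset.sum_le_sum fun y _ => hpt x y
    _ ≤ ((2:ℝ)^(n+1))^(2*d) *
        ∑ T : Fin d → Fin (n+3), (1/2)^(∑ j, ((T j : Fin (n+3)) : ℕ)) * F (fun j => T j) :=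
        pair_count_g d n F hF0
    _ ≤ ((2:ℝ)^(n+1))^(2*d) * (C0 * n * 2 ^ n) := by
        have := hk n hn
        exact mul_le_mul_of_nonneg_left this (by positivity)
    _ = C0 * n * 2 ^ n * ((2 : ℝ) ^ (n + 1)) ^ (2 * d) := by ring

/-- a general form of the volume estimate: an orthonormal system of size `N ≥ c0 2^n n^(d-1)` on a
grid with `log |X| ≤ C1 n` and the kernel bound -/
theorem vol_abs {X ι : Type} [Fintype X] [Nonempty X] [Fintype ι] [DecidableEq ι] (b : ι → X → ℝ)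
    (h0 : ∀ i, ∑ x, b i x = 0)
    (h1 : ∀ i j, ∑ x, b i x * b j x = if i = j then (Fintype.card X : ℝ) else 0)
    (h2 : ∀ x, ∑ i, b i x ^ 2 = Fintype.card ι)
    (d n : ℕ) (hd : 3 ≤ d) (hn : 1 ≤ n) (a c0 C1 CH : ℝ) (ha : 0 < a) (hc0 : 0 < c0) (hC1 : 0 < C1)
    (hCH : 0 < CH) (hN : 2 * c0 * (2^n * (n:ℝ)^(d-1)) ≤ Fintype.card ι)
    (hX : Real.log (2 * Fintype.card X) + 1 ≤ C1 * n)
    (hH : (∑ x, ∑ y, (1 + ∑ i, b i x * b i y)^2 *
      (Real.exp ((Real.sqrt (a * n / Fintype.card ι))^2 * ∑ i, b i x * b i y) - 1))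
        / (Fintype.card X : ℝ)^2 ≤ CH * n * 2^n) :
    volume {v : ι → ℝ | ∀ x, |∑ i, v i * b i x| ≤ 1} ≤
      ENNReal.ofReal (((Real.sqrt 2 * (2 * π * Real.exp 1) *
        Real.exp (4 + 4 * (a + C1) * CH / c0) * (Real.sqrt (2 * π * a))⁻¹ *
      (Real.sqrt (2 * c0))⁻¹) * (Real.sqrt (2^n * (n:ℝ)^d))⁻¹)^(Fintype.card ι)) := by
  have hn1 : (1:ℝ) ≤ n := by exact_mod_cast hn
  have hn0 : (0:ℝ) < n := by linarith
  have hNpos : (0:ℝ) < (Fintype.card ι : ℝ) := lt_of_lt_of_le (by positivity) hN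
  have hN1 : 1 ≤ Fintype.card ι := by exact_mod_cast hNpos
  have hN1r : (1:ℝ) ≤ (Fintype.card ι : ℝ) := by exact_mod_cast hN1
  have hpow : (n:ℝ)^(d-1) * n = (n:ℝ)^d := by
    rw [← pow_succ]
    congr 1
    omega
  have hpow2 : (n:ℝ)^2 ≤ (n:ℝ)^(d-1) := pow_le_pow_right₀ hn1 (by omega)
  have hqN : 2 * c0 * (2^n * (n:ℝ)^d) ≤ (Fintype.card ι : ℝ) * n := by
    rw [← hpow]
    calc 2 * c0 * (2^n * ((n:ℝ)^(d-1) * n)) = 2 * c0 * (2^n * (n:ℝ)^(d-1)) * n := by ring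
      _ ≤ (Fintype.card ι : ℝ) * n := by gcongr
  have hs2 : (Real.sqrt (a * n / Fintype.card ι))^2 = a * n / Fintype.card ι :=
    Real.sq_sqrt (by positivity)
  have hs0 : 0 < Real.sqrt (a * n / Fintype.card ι) := Real.sqrt_pos.2 (by positivity)
  have hpol := HypVol.gibbs_polar b hN1 h0 h1 h2 (Real.sqrt (a * n / Fintype.card ι)) hs0
    (CH * n * 2^n) hH
  have hlog2 : Real.log 2 ≤ 1 := by
    have := Real.log_two_lt_d9
    linarith
  have hlog20 : 0 ≤ Real.log 2 := Real.log_nonneg (by norm_num)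
  have hR : ((Fintype.card ι : ℝ) + 1) * (1 + Real.log 2) +
      8 * ((Real.sqrt (a * n / Fintype.card ι))^2 * (Fintype.card ι : ℝ) +
        Real.log (2 * Fintype.card X) + 1) * (CH * n * 2^n) ≤
      (4 + 4 * (a + C1) * CH / c0) * (Fintype.card ι : ℝ) := by
    have e1 : (Real.sqrt (a * n / Fintype.card ι))^2 * (Fintype.card ι : ℝ) = a * n := by
      rw [hs2]
      field_simp
    rw [e1]
    have e2 : ((Fintype.card ι : ℝ) + 1) * (1 + Real.log 2) ≤ 4 * (Fintype.card ι : ℝ) := by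
      nlinarith
    have e3 : a * n + Real.log (2 * Fintype.card X) + 1 ≤ (a + C1) * n := by
      linarith
    have e4 : 2 * c0 * (2^n * (n:ℝ)^2) ≤ (Fintype.card ι : ℝ) := by
      calc 2 * c0 * (2^n * (n:ℝ)^2) ≤ 2 * c0 * (2^n * (n:ℝ)^(d-1)) := by gcongr
        _ ≤ _ := hN
    have e5 : 8 * (a * n + Real.log (2 * Fintype.card X) + 1) * (CH * n * 2^n) ≤
        4 * (a + C1) * CH / c0 * (Fintype.card ι : ℝ) := by
      calc 8 * (a * n + Real.log (2 * Fintype.card X) + 1) * (CH * n * 2^n)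
          ≤ 8 * ((a + C1) * n) * (CH * n * 2^n) := by gcongr
        _ = 4 * (a + C1) * CH / c0 * (2 * c0 * (2^n * (n:ℝ)^2)) := by
            field_simp
            ring
        _ ≤ _ := by gcongr
    refine (add_le_add e2 e5).trans (le_of_eq ?_)
    ring
  have hfin := HypVol.Sol_vol_upper.vol_upper_real (Fintype.card ι) hN1 n hn0 a c0
    (4 + 4 * (a + C1) * CH / c0) (2^n * (n:ℝ)^d) _ ha hc0 (by positivity) hqN
    (Real.sqrt (a * n / Fintype.card ι)) hs2 hR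
  refine hpol.trans (ENNReal.ofReal_le_ofReal ?_)
  refine le_trans ?_ hfin
  have h2' : (1:ℝ) ≤ (Real.sqrt 2)^(Fintype.card ι) :=
    one_le_pow₀ (Real.one_le_sqrt.2 (by norm_num))
  exact le_mul_of_one_le_left (by positivity) h2'

/-- volume of the unit ball of the sup norm -/
theorem vol_haar (d : ℕ) (hd : 3 ≤ d) : ∃ C : ℝ, 0 < C ∧ ∀ n : ℕ, 1 ≤ n → ∀ l : ℝ, 0 < l →
    volume {a : Rect d n → ℝ | supNorm a ≤ l} ≤
      ENNReal.ofReal ((C * l / Real.sqrt ((n:ℝ)^d))^(Fintype.card (Rect d n))) := by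
  obtain ⟨a, CH, ha, hCH, hH⟩ := H_bound_g d (by omega)
  obtain ⟨c1, hc1, hshp⟩ := HypVol.shp_lower d (by omega)
  refine ⟨Real.sqrt 2 * (2 * π * Real.exp 1) *
        Real.exp (4 + 4 * (a + (2 + 2 * d)) * CH / (c1/2)) * (Real.sqrt (2 * π * a))⁻¹ *
      (Real.sqrt (2 * (c1/2)))⁻¹, by positivity, ?_⟩
  intro n hn l hl
  have hn1 : (1:ℝ) ≤ n := by exact_mod_cast hn
  have hNcard : (Fintype.card (Rect d n) : ℝ) = 2^n * shp d n := by
    rw [card_rect]; push_cast; ring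
  have hN : 2 * (c1/2) * (2^n * (n:ℝ)^(d-1)) ≤ (Fintype.card (Rect d n) : ℝ) := by
    rw [hNcard]
    have h := hshp n hn
    rw [← shp_eq] at h
    calc 2 * (c1/2) * (2^n * (n:ℝ)^(d-1)) = 2^n * (c1 * (n:ℝ)^(d-1)) := by ring
      _ ≤ 2^n * shp d n := by gcongr
  have hX : Real.log (2 * Fintype.card (Fin d → Fin (2^(n+1)))) + 1 ≤ (2 + 2 * d) * n := by
    have e1 : (2 * Fintype.card (Fin d → Fin (2^(n+1))) : ℝ) = 2^(1 + (n+1)*d) := by
      rw [Fintype.card_fun, Fintype.card_fin, Fintype.card_fin]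
      push_cast
      rw [← pow_mul]
      ring
    rw [e1, Real.log_pow]
    push_cast
    have hlog2 : Real.log 2 ≤ 1 := by
      have := Real.log_two_lt_d9
      linarith
    have hd0 : (0:ℝ) ≤ d := by positivity
    calc (1 + ((n:ℝ)+1) * d) * Real.log 2 + 1 ≤ (1 + ((n:ℝ)+1) * d) * 1 + 1 := by gcongr
      _ ≤ (2 + 2 * d) * n := by nlinarith
  have hv := vol_abs (X := Fin d → Fin (2^(n+1))) (ι := Rect d n) bg (bg_zero d n (by omega))
    (bg_orth d n) (bg_sq d n) d n hd hn a (c1/2) (2 + 2 * d) CH ha (by positivity) (by positivity)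
    hCH hN hX (by rw [hNcard]; exact hH n hn)
  set K : ℝ := Real.sqrt 2 * (2 * π * Real.exp 1) *
        Real.exp (4 + 4 * (a + (2 + 2 * d)) * CH / (c1/2)) * (Real.sqrt (2 * π * a))⁻¹ *
      (Real.sqrt (2 * (c1/2)))⁻¹ with hK
  have hK0 : 0 ≤ K := by positivity
  set t : ℝ := Real.sqrt (2^n) * l with ht
  have ht0 : 0 < t := by positivity
  have hsub : {v : Rect d n → ℝ | supNorm v ≤ l} ⊆
      t • {v : Rect d n → ℝ | ∀ x, |∑ R, v R * bg R x| ≤ 1} := by
    intro v hvv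
    rw [Set.mem_smul_set_iff_inv_smul_mem₀ ht0.ne']
    intro x
    have h1 := (sup_grid d n v x).trans (mul_le_mul_of_nonneg_left hvv (Real.sqrt_nonneg _))
    have h2 : ∑ R, (t⁻¹ • v) R * bg R x = t⁻¹ * ∑ R, v R * bg R x := by
      rw [Finset.mul_sum]
      apply Finset.sum_congr rfl
      intro i _
      rw [Pi.smul_apply, smul_eq_mul, mul_assoc]
    rw [h2, abs_mul, abs_of_pos (inv_pos.2 ht0)]
    calc t⁻¹ * |∑ R, v R * bg R x| ≤ t⁻¹ * t := by gcongr
      _ = 1 := inv_mul_cancel₀ ht0.ne'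
  calc volume {v : Rect d n → ℝ | supNorm v ≤ l}
      ≤ volume (t • {v : Rect d n → ℝ | ∀ x, |∑ R, v R * bg R x| ≤ 1}) := measure_mono hsub
    _ = ENNReal.ofReal (t ^ Fintype.card (Rect d n)) *
        volume {v : Rect d n → ℝ | ∀ x, |∑ R, v R * bg R x| ≤ 1} := by
        rw [Measure.addHaar_smul, Module.finrank_fintype_fun_eq_card, abs_of_nonneg (by positivity)]
    _ ≤ ENNReal.ofReal (t ^ Fintype.card (Rect d n)) *
        ENNReal.ofReal ((K * (Real.sqrt (2^n * (n:ℝ)^d))⁻¹)^(Fintype.card (Rect d n))) :=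
        mul_le_mul_right hv _
    _ = ENNReal.ofReal ((K * l / Real.sqrt ((n:ℝ)^d))^(Fintype.card (Rect d n))) := by
        rw [← ENNReal.ofReal_mul (by positivity), ← mul_pow]
        congr 2
        rw [Real.sqrt_mul (by positivity), ht]
        have h2n : Real.sqrt ((2:ℝ)^n) ≠ 0 := (Real.sqrt_pos.2 (by positivity)).ne'
        have hnd : Real.sqrt ((n:ℝ)^d) ≠ 0 := (Real.sqrt_pos.2 (by positivity)).ne'
        field_simp

end HaarSB
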